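import Pool.Agent.V11298.SR.Cho

/-!
# MP_52aa73_nt: sign patterns of the randomly perturbed Liouville function

The value `λ(m)` is replaced by `λ(m + t m)`, where `t m` is one of the `W` numbers `0, …, W - 1`; the
index `i : Fin X` stands for `m = i + 1`.
-/

set_option autoImplicit false

open Finset

namespace Pool.Agent.Results.MP_52aa73_nt.PerturbedSignPatterns

/-- The Liouville function. -/
noncomputable def lio (n : ℕ) : ℝ := (-1) ^ ArithmeticFunction.cardFactors n

/-- The perturbed Liouville function: `λ(m + t m)` for `1 ≤ m ≤ X`, and `0` elsewhere; the index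
`i : Fin X` stands for `m = i + 1`. -/
noncomputable def pert {X W : ℕ} (t : Fin X → Fin W) (m : ℕ) : ℝ :=
  if h : 1 ≤ m ∧ m ≤ X then lio (m + (t ⟨m - 1, by omega⟩ : ℕ)) else 0

open Classical in
/-- The number of perturbations `t : {1, …, X} → {0, …, W - 1}` without the property `P` is at most
`exp (- c X)` times the number `W ^ X` of all perturbations. -/
def Rare (X W : ℕ) (c : ℝ) (P : (Fin X → Fin W) → Prop) : Prop :=
  ((univ.filter fun t : Fin X → Fin W => ¬ P t).card : ℝ) ≤ Real.exp (-(c * X)) * (W : ℝ) ^ X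

theorem rare_of {X W : ℕ} {c : ℝ} {Q : (Fin X → Fin W) → Prop}
    {inst : DecidablePred fun t : Fin X → Fin W => ¬ Q t}
    (h : ((@Finset.filter (Fin X → Fin W) (fun t => ¬ Q t) inst univ).card : ℝ) ≤
      Real.exp (-(c * X)) * (W : ℝ) ^ X) (P : (Fin X → Fin W) → Prop)
    (hPQ : ∀ t, Q t → P t) : Rare X W c P := by
  classical
  unfold Rare
  refine le_trans (Nat.cast_le.2 (card_le_card fun t ht => ?_)) h
  exact mem_filter.2 ⟨mem_univ _, fun hq => (mem_filter.1 ht).2 (hPQ t hq)⟩

theorem lio_le (n : ℕ) : |lio n| ≤ 1 := by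
  unfold lio
  simp

theorem lio_or (n : ℕ) : lio n = 1 ∨ lio n = -1 := by
  unfold lio
  exact neg_one_pow_eq_or ℝ _

theorem lio_eq : (fun n => ((Pool.Agent.H376R2.MR.lam n : ℤ) : ℂ)) =
    fun n => ((lio n : ℝ) : ℂ) := by
  funext n
  simp [lio, Pool.Agent.H376R2.MR.lam]

theorem dual_lio : Pool.Agent.V11298.SR.WinDual (fun n => ((lio n : ℝ) : ℂ)) := by
  rw [← lio_eq]
  exact Pool.Agent.V11298.SR.dual_of_expo Pool.Agent.TH823.MRS.expo_lam

open Classical in
theorem freq {X W : ℕ} (t : Fin X → Fin W) {g : ℕ} {δ : ℝ} (hδ : 0 ≤ δ)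
    (hc : ∀ A : Finset ℕ, A.Nonempty → A.card ≤ g → ∀ N : ℕ, N ≤ X →
      |∑ n ∈ Icc 1 N, ∏ a ∈ A, pert t (n + a)| ≤ δ) (s : ℕ → ℝ) (hs : ∀ m, s m = 1 ∨ s m = -1)
    (N : ℕ) (hN : N ≤ X) :
    |(((Icc 1 N).filter fun n => ∀ m ∈ Icc 1 g, pert t (n + m) = s m).card : ℝ) - N / 2 ^ g| ≤
      δ + g := by
  set Pr : ℕ → ℝ := fun n => ∏ m ∈ Icc 1 g, (1 + s m * pert t (n + m)) / 2 with hPr
  have hsabs : ∀ m, |s m| = 1 := by
    intro m
    rcases hs m with h | h <;> rw [h] <;> simp
  have hp : ∀ m, |pert t m| ≤ 1 := by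
    intro m
    unfold pert
    split_ifs
    · exact lio_le _
    · simp
  have hf : ∀ n m, 0 ≤ (1 + s m * pert t (n + m)) / 2 ∧ (1 + s m * pert t (n + m)) / 2 ≤ 1 := by
    intro n m
    have h1 : |s m * pert t (n + m)| ≤ 1 := by
      rw [abs_mul, hsabs, one_mul]
      exact hp _
    have h2 := abs_le.1 h1
    constructor <;> linarith
  have hPr01 : ∀ n, 0 ≤ Pr n ∧ Pr n ≤ 1 := fun n =>
    ⟨prod_nonneg fun m _ => (hf n m).1, prod_le_one (fun m _ => (hf n m).1) fun m _ => (hf n m).2⟩
  have hexp : ∑ n ∈ Icc 1 N, Pr n = N / 2 ^ g + (1 / 2 ^ g) *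
      ∑ A ∈ (Icc 1 g).powerset.erase ∅, (∏ m ∈ A, s m) * ∑ n ∈ Icc 1 N, ∏ a ∈ A, pert t (n + a) := by
    have h1 : ∀ n, Pr n = (1 / 2 ^ g) * ∑ A ∈ (Icc 1 g).powerset, (∏ m ∈ A, s m) *
        ∏ a ∈ A, pert t (n + a) := by
      intro n
      simp only [hPr]
      rw [prod_div_distrib, prod_const, Nat.card_Icc, Nat.add_sub_cancel, prod_one_add]
      simp only [prod_mul_distrib]
      ring
    simp only [h1]
    rw [← mul_sum, sum_comm]
    rw [← add_sum_erase (Icc 1 g).powerset _ (empty_mem_powerset _)]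
    simp only [prod_empty, one_mul, sum_const, Nat.card_Icc, Nat.add_sub_cancel, nsmul_eq_mul,
      mul_one, mul_sum]
    ring_nf
    simp only [mul_sum, sum_mul]
    congr 1
    refine sum_congr rfl fun A _ => sum_congr rfl fun n _ => ?_
    ring
  have hmain : |∑ n ∈ Icc 1 N, Pr n - N / 2 ^ g| ≤ δ := by
    rw [hexp, add_sub_cancel_left, abs_mul, abs_of_pos (by positivity)]
    have h1 : |∑ A ∈ (Icc 1 g).powerset.erase ∅, (∏ m ∈ A, s m) *
        ∑ n ∈ Icc 1 N, ∏ a ∈ A, pert t (n + a)| ≤ 2 ^ g * δ := by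
      refine (abs_sum_le_sum_abs _ _).trans ?_
      calc _ ≤ ∑ _A ∈ (Icc 1 g).powerset.erase ∅, δ := by
            refine sum_le_sum fun A hA => ?_
            rw [mem_erase, mem_powerset] at hA
            rw [abs_mul, abs_prod, prod_congr rfl fun m _ => hsabs m, prod_const_one, one_mul]
            refine hc A (nonempty_iff_ne_empty.2 hA.1) ?_ N hN
            have := card_le_card hA.2
            rw [Nat.card_Icc, Nat.add_sub_cancel] at this
            exact this
        _ = (((Icc 1 g).powerset.erase ∅).card : ℝ) * δ := by rw [sum_const, nsmul_eq_mul]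
        _ ≤ 2 ^ g * δ := by
            refine mul_le_mul_of_nonneg_right ?_ hδ
            have h2 := card_le_card (erase_subset ∅ (Icc 1 g).powerset)
            rw [card_powerset, Nat.card_Icc, Nat.add_sub_cancel] at h2
            exact_mod_cast h2
    calc 1 / 2 ^ g * _ ≤ 1 / 2 ^ g * (2 ^ g * δ) := mul_le_mul_of_nonneg_left h1 (by positivity)
      _ = δ := by field_simp
  have hind : |(((Icc 1 N).filter fun n => ∀ m ∈ Icc 1 g, pert t (n + m) = s m).card : ℝ) -
      ∑ n ∈ Icc 1 N, Pr n| ≤ g := by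
    rw [card_eq_sum_ones, sum_filter]
    push_cast
    rw [← sum_sub_distrib]
    refine (abs_sum_le_sum_abs _ _).trans ?_
    calc _ ≤ ∑ n ∈ Icc 1 N, (if X < n + g then (1 : ℝ) else 0) := by
          refine sum_le_sum fun n hn => ?_
          have hn1 := (mem_Icc.1 hn).1
          by_cases hX : X < n + g
          · rw [if_pos hX]
            have h1 := hPr01 n
            split_ifs <;> rw [abs_le] <;> constructor <;> linarith
          · rw [if_neg hX]
            have hor : ∀ m ∈ Icc 1 g, pert t (n + m) = 1 ∨ pert t (n + m) = -1 := by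
              intro m hm
              have := mem_Icc.1 hm
              unfold pert
              rw [dif_pos ⟨by omega, by omega⟩]
              exact lio_or _
            by_cases hall : ∀ m ∈ Icc 1 g, pert t (n + m) = s m
            · rw [if_pos hall]
              have h2 : Pr n = 1 := by
                simp only [hPr]
                refine prod_eq_one fun m hm => ?_
                rw [hall m hm]
                rcases hs m with h | h <;> rw [h] <;> norm_num
              rw [h2]
              simp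
            · rw [if_neg hall]
              push Not at hall
              obtain ⟨m, hm, hne⟩ := hall
              have h2 : Pr n = 0 := by
                simp only [hPr]
                refine prod_eq_zero hm ?_
                rcases hs m with h | h <;> rcases hor m hm with h' | h'
                · exact absurd (h'.trans h.symm) hne
                · rw [h, h']; norm_num
                · rw [h, h']; norm_num
                · exact absurd (h'.trans h.symm) hne
              rw [h2]
              simp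
      _ = (((Icc 1 N).filter fun n => X < n + g).card : ℝ) := by
          rw [← sum_filter, sum_const, nsmul_eq_mul, mul_one]
      _ ≤ g := by
          have h1 : (Icc 1 N).filter (fun n => X < n + g) ⊆ Ioc (X - g) X := by
            intro n hn
            rw [mem_filter, mem_Icc] at hn
            rw [mem_Ioc]
            omega
          have h2 := card_le_card h1
          rw [Nat.card_Ioc] at h2
          exact_mod_cast h2.trans (by omega)
  have h1 := abs_le.1 hmain
  have h2 := abs_le.1 hind
  rw [abs_le]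
  constructor <;> linarith

open Classical in
/-- **The sign patterns of the randomly perturbed Liouville function are equidistributed.** -/
theorem result (g : ℕ) (hg : 1 ≤ g) (ε : ℝ) (hε : 0 < ε) :
    ∃ c : ℝ, 0 < c ∧ ∃ W₀ : ℕ, ∀ W : ℕ, W₀ ≤ W → ∃ X₀ : ℕ, ∀ X : ℕ, X₀ ≤ X →
      Rare X W c fun t => ∀ s : ℕ → ℝ, (∀ m, s m = 1 ∨ s m = -1) → ∀ N : ℕ, N ≤ X →
        |(((Icc 1 N).filter fun n => ∀ m ∈ Icc 1 g, pert t (n + m) = s m).card : ℝ) -
          N / 2 ^ g| ≤ ε * X := by
  obtain ⟨c, hc, W₀, h⟩ := Pool.Agent.V11298.SR.chowla lio_le dual_lio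
    (show 0 < ε / 2 by positivity) hg
  refine ⟨c, hc, W₀, fun W hW => ?_⟩
  obtain ⟨X₀, hX₀⟩ := h W hW
  obtain ⟨X₁, hX₁⟩ := exists_nat_ge (2 * (g : ℝ) / ε)
  refine ⟨max X₀ X₁, fun X hX => ?_⟩
  have h1 := hX₀ X ((le_max_left _ _).trans hX)
  refine rare_of h1 _ ?_
  intro t ht s hs N hN
  refine (freq t (g := g) (δ := ε / 2 * X) (by positivity)
    (fun A hA hAk N hN => ht A hA hAk N hN) s hs N hN).trans ?_
  have h2 : 2 * (g : ℝ) / ε ≤ X := hX₁.trans (by exact_mod_cast (le_max_right _ _).trans hX)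
  rw [div_le_iff₀ hε] at h2
  linarith

end Pool.Agent.Results.MP_52aa73_nt.PerturbedSignPatterns
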